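import Pool.Agent.Helper30_Simp.Stmts

/-!
# Module ALG2, part 1: lattice points of polytopes, some coordinates of arbitrary sign
-/

set_option autoImplicit false
set_option linter.unusedVariables false
set_option linter.unusedSectionVars false

namespace Pool.Agent.Helper30_Simp2.H26

open Finset Pool.Agent.Helper30_Simp

section

variable {I W : Type} [Fintype I] [Fintype W]

/-- compactness -/
theorem exists_delta (mu : I → W → ℤ) (Pos : Finset I)
    (hpt : ∀ c : I → ℝ, (∀ i ∈ Pos, 0 ≤ c i) → (∀ ρ, 0 ≤ ∑ i, c i * (mu i ρ : ℝ)) → c = 0) :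
    ∃ δ : ℝ, 0 < δ ∧ ∀ c : I → ℝ, (∀ i ∈ Pos, 0 ≤ c i) → c ≠ 0 →
      ∃ ρ, ∑ i, c i * (mu i ρ : ℝ) ≤ - δ * ‖c‖ := by
  have key : ∃ δ : ℝ, 0 < δ ∧ ∀ c : I → ℝ, (∀ i ∈ Pos, 0 ≤ c i) → ‖c‖ = 1 →
      ∃ ρ, ∑ i, c i * (mu i ρ : ℝ) ≤ - δ := by
    by_contra hcon
    push Not at hcon
    have h1 : ∀ n : ℕ, ∃ c : I → ℝ, (∀ i ∈ Pos, 0 ≤ c i) ∧ ‖c‖ = 1 ∧
        ∀ ρ, - (1 / ((n : ℝ) + 1)) < ∑ i, c i * (mu i ρ : ℝ) :=
      fun n => hcon _ (by positivity)
    choose c hc0 hc1 hc2 using h1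
    have hcomp : IsCompact (Metric.closedBall (0 : I → ℝ) 1) := isCompact_closedBall _ _
    obtain ⟨a, ha, φ, hφ, hlim⟩ := hcomp.tendsto_subseq (x := c) (fun n => by
      rw [mem_closedBall_zero_iff, hc1 n])
    have hn : ‖a‖ = 1 := by
      have h2 : Filter.Tendsto (fun n => ‖c (φ n)‖) Filter.atTop (nhds ‖a‖) :=
        (continuous_norm.tendsto a).comp hlim
      simp only [hc1] at h2
      exact tendsto_nhds_unique h2 tendsto_const_nhds
    have h0 : a = 0 := by
      refine hpt a (fun i hi => ?_) fun ρ => ?_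
      · exact ge_of_tendsto' ((tendsto_pi_nhds.1 hlim) i) (fun n => hc0 _ i hi)
      · have ht : Filter.Tendsto (fun n => ∑ i, c (φ n) i * (mu i ρ : ℝ)) Filter.atTop
            (nhds (∑ i, a i * (mu i ρ : ℝ))) := by
          refine tendsto_finsetSum _ fun i _ => ?_
          exact ((tendsto_pi_nhds.1 hlim) i).mul_const _
        have ht2 : Filter.Tendsto (fun n => - (1 / ((φ n : ℝ) + 1))) Filter.atTop (nhds 0) := by
          have := (tendsto_one_div_add_atTop_nhds_zero_nat (𝕜 := ℝ)).comp hφ.tendsto_atTop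
          simpa using this.neg
        exact le_of_tendsto_of_tendsto' ht2 ht (fun n => (hc2 (φ n) ρ).le)
    rw [h0, norm_zero] at hn
    exact zero_ne_one hn
  obtain ⟨δ, hδ, h⟩ := key
  refine ⟨δ, hδ, fun c hc hne => ?_⟩
  have hs : 0 < ‖c‖ := norm_pos_iff.2 hne
  obtain ⟨ρ, hρ⟩ := h (‖c‖⁻¹ • c) (fun i hi => mul_nonneg (inv_nonneg.2 hs.le) (hc i hi)) (by
    rw [norm_smul, norm_inv, norm_norm, inv_mul_cancel₀ hs.ne'])
  refine ⟨ρ, ?_⟩
  have h3 : ∑ i, (‖c‖⁻¹ • c) i * (mu i ρ : ℝ) = ‖c‖⁻¹ * ∑ i, c i * (mu i ρ : ℝ) := by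
    rw [Finset.mul_sum]
    exact Finset.sum_congr rfl fun i _ => by
      rw [Pi.smul_apply, smul_eq_mul]
      ring
  rw [h3] at hρ
  have h4 := mul_le_mul_of_nonneg_left hρ hs.le
  rw [← mul_assoc, mul_inv_cancel₀ hs.ne', one_mul] at h4
  linarith

/-- the sets of lattice points -/
def QS (mu : I → W → ℤ) (Pos D : Finset I) (T : Finset W) (h : W → ℤ) : Set (I → ℤ) :=
  {c | (∀ i ∈ Pos, 0 ≤ c i) ∧ (∀ i, i ∉ D → c i = 0) ∧
    ∀ ρ, (ρ ∈ T → h ρ + ∑ i, c i * mu i ρ = -1) ∧ (ρ ∉ T → 0 ≤ h ρ + ∑ i, c i * mu i ρ)}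

/-- the number of lattice points -/
noncomputable def vc2 (mu : I → W → ℤ) (Pos D : Finset I) (h : W → ℤ) : ℂ :=
  ((QS mu Pos D ∅ h).ncard : ℂ)

/-- the cone condition, quantified -/
def Cond (mu : I → W → ℤ) (Pos : Finset I) (δ : ℝ) : Prop :=
  ∀ c : I → ℝ, (∀ i ∈ Pos, 0 ≤ c i) → c ≠ 0 → ∃ ρ, ∑ i, c i * (mu i ρ : ℝ) ≤ - δ * ‖c‖

variable {mu : I → W → ℤ} {Pos : Finset I} {δ : ℝ}

theorem norm_le' (hδ : 0 < δ) (hd : Cond mu Pos δ) {e : ℝ} (he : 0 ≤ e) {h : W → ℤ} {c : I → ℤ}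
    (hp : ∀ i ∈ Pos, 0 ≤ c i)
    (hc : ∀ ρ, - e ≤ (h ρ : ℝ) + ∑ i, (c i : ℝ) * (mu i ρ : ℝ)) :
    ‖(fun i => (c i : ℝ))‖ ≤ (∑ ρ, |(h ρ : ℝ)| + e) / δ := by
  rw [le_div_iff₀ hδ]
  by_cases h0 : (fun i => (c i : ℝ)) = 0
  · rw [h0, norm_zero, zero_mul]
    have : 0 ≤ ∑ ρ, |(h ρ : ℝ)| := Finset.sum_nonneg fun _ _ => abs_nonneg _
    linarith
  · obtain ⟨ρ, hρ⟩ := hd _ (fun i hi => by exact_mod_cast hp i hi) h0
    have h1 := hc ρ
    have h2 : |(h ρ : ℝ)| ≤ ∑ ρ, |(h ρ : ℝ)| :=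
      Finset.single_le_sum (f := fun ρ => |(h ρ : ℝ)|) (fun _ _ => abs_nonneg _) (Finset.mem_univ ρ)
    have h3 := le_abs_self (h ρ : ℝ)
    have h4 : ∑ i, (c i : ℝ) * (mu i ρ : ℝ) ≤ - δ * ‖(fun i => (c i : ℝ))‖ := hρ
    linarith

theorem QS_ge {D : Finset I} {T : Finset W} {h : W → ℤ} {c : I → ℤ} (hc : c ∈ QS mu Pos D T h)
    (ρ : W) : - (1 : ℝ) ≤ (h ρ : ℝ) + ∑ i, (c i : ℝ) * (mu i ρ : ℝ) := by
  have h1 : -1 ≤ h ρ + ∑ i, c i * mu i ρ := by
    by_cases hρ : ρ ∈ T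
    · exact ((hc.2.2 ρ).1 hρ).ge
    · have := (hc.2.2 ρ).2 hρ
      omega
  exact_mod_cast h1

theorem abs_le' (hδ : 0 < δ) (hd : Cond mu Pos δ) {e : ℝ} (he : 0 ≤ e) {h : W → ℤ} {c : I → ℤ}
    (hp : ∀ i ∈ Pos, 0 ≤ c i)
    (hc : ∀ ρ, - e ≤ (h ρ : ℝ) + ∑ i, (c i : ℝ) * (mu i ρ : ℝ)) (i : I) :
    |c i| ≤ (⌊(∑ ρ, |(h ρ : ℝ)| + e) / δ⌋₊ : ℤ) := by
  have h1 := norm_le' hδ hd he hp hc
  have h2 : ‖(c i : ℝ)‖ ≤ ‖(fun i => (c i : ℝ))‖ := norm_le_pi_norm (fun i => (c i : ℝ)) i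
  rw [Real.norm_eq_abs] at h2
  have h3 : ((c i).natAbs : ℝ) ≤ (∑ ρ, |(h ρ : ℝ)| + e) / δ := by
    rw [Nat.cast_natAbs, Int.cast_abs]
    exact h2.trans h1
  have h4 := Nat.le_floor h3
  have h5 : |c i| = ((c i).natAbs : ℤ) := Int.abs_eq_natAbs _
  rw [h5]
  exact_mod_cast h4

theorem box_finite (B : ℕ) : {c : I → ℤ | ∀ i, |c i| ≤ (B : ℤ)}.Finite := by
  have h1 : {z : ℤ | |z| ≤ (B : ℤ)}.Finite :=
    (Set.finite_Icc (-(B : ℤ)) B).subset fun z hz => abs_le.1 hz
  exact Set.Finite.pi' fun _ => h1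

theorem QS_finite (hδ : 0 < δ) (hd : Cond mu Pos δ) (D : Finset I) (T : Finset W) (h : W → ℤ) :
    (QS mu Pos D T h).Finite :=
  (box_finite _).subset fun c hc => abs_le' hδ hd zero_le_one hc.1 (fun ρ => QS_ge hc ρ)

theorem vc2_bound (hδ : 0 < δ) (hd : Cond mu Pos δ) (D : Finset I) (h : W → ℤ) :
    ‖vc2 mu Pos D h‖ ≤ (1 + 2 / δ) ^ Fintype.card I * (1 + ∑ ρ, |(h ρ : ℝ)|) ^ Fintype.card I := by
  classical
  set H : ℝ := ∑ ρ, |(h ρ : ℝ)| with hH
  have hH0 : 0 ≤ H := Finset.sum_nonneg fun _ _ => abs_nonneg _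
  unfold vc2
  rw [Complex.norm_natCast, ← mul_pow]
  set B := ⌊H / δ⌋₊ with hB
  have hb : ∀ c ∈ QS mu Pos D ∅ h, ∀ i, |c i| ≤ (B : ℤ) := by
    intro c hc i
    have := abs_le' hδ hd (le_refl (0 : ℝ)) (h := h) (c := c) hc.1 (fun ρ => by
      have := (hc.2.2 ρ).2 (Finset.notMem_empty ρ)
      rw [neg_zero]
      exact_mod_cast this) i
    rw [add_zero] at this
    exact this
  have h1 : (QS mu Pos D ∅ h).ncard ≤ (2 * B + 1) ^ Fintype.card I := by
    rw [← Nat.card_coe_set_eq]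
    have hlt : ∀ c : QS mu Pos D ∅ h, ∀ i, (c.1 i + B).toNat < 2 * B + 1 := by
      intro c i
      have := abs_le.1 (hb c.1 c.2 i)
      omega
    have := Nat.card_le_card_of_injective (α := QS mu Pos D ∅ h) (β := I → Fin (2 * B + 1))
      (fun c i => ⟨(c.1 i + B).toNat, hlt c i⟩) (fun c c' hcc => Subtype.ext (funext fun i => by
        have h2 := congrArg Fin.val (congrFun hcc i)
        simp only at h2
        have h3 := abs_le.1 (hb c.1 c.2 i)
        have h4 := abs_le.1 (hb c'.1 c'.2 i)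
        omega))
    refine this.trans (le_of_eq ?_)
    rw [Nat.card_eq_fintype_card, Fintype.card_fun, Fintype.card_fin]
  calc (((QS mu Pos D ∅ h).ncard : ℕ) : ℝ) ≤ (((2 * B + 1) ^ Fintype.card I : ℕ) : ℝ) := by
        exact_mod_cast h1
    _ = (2 * (B : ℝ) + 1) ^ Fintype.card I := by push_cast; ring
    _ ≤ _ := by
      refine pow_le_pow_left₀ (by positivity) ?_ _
      have h2 : (B : ℝ) ≤ H / δ := Nat.floor_le (by positivity)
      have h3 : 0 ≤ 2 / δ := by positivity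
      have h4 : 2 * (H / δ) = H * (2 / δ) := by ring
      nlinarith

theorem sum_single [DecidableEq I] (c : I → ℤ) (i : I) (z : ℤ) (ρ : W) :
    ∑ j, (c + Pi.single i z : I → ℤ) j * mu j ρ = ∑ j, c j * mu j ρ + z * mu i ρ := by
  have : ∀ j, (c + Pi.single i z : I → ℤ) j * mu j ρ
      = c j * mu j ρ + if j = i then z * mu j ρ else 0 := by
    intro j
    rw [Pi.add_apply, Pi.single_apply]
    split_ifs <;> ring
  simp only [this]
  rw [Finset.sum_add_distrib, Finset.sum_ite_eq' Finset.univ i, if_pos (Finset.mem_univ i)]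

theorem vc2_diff [DecidableEq I] (hδ : 0 < δ) (hd : Cond mu Pos δ) (D : Finset I) (i : I)
    (hP : i ∈ Pos) (hi : i ∈ D) (h : W → ℤ) :
    vc2 mu Pos D (h + mu i) = vc2 mu Pos D h - vc2 mu Pos (D.erase i) h := by
  rw [eq_sub_iff_add_eq]
  unfold vc2
  have hinj : Function.Injective (fun c : I → ℤ => c + Pi.single i 1) := fun a b hab => by
    simpa using hab
  have hU : QS mu Pos D ∅ h = (fun c : I → ℤ => c + Pi.single i 1) '' QS mu Pos D ∅ (h + mu i)
      ∪ QS mu Pos (D.erase i) ∅ h := by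
    ext c
    simp only [QS, Set.mem_union, Set.mem_image, Set.mem_ofPred_eq, Finset.notMem_empty,
      false_implies, not_false_eq_true, true_implies, true_and, Pi.add_apply]
    constructor
    · rintro ⟨h0, h1, h2⟩
      rcases eq_or_lt_of_le (h0 i hP) with h3 | h3
      · right
        refine ⟨h0, fun l hl => ?_, h2⟩
        by_cases hli : l = i
        · rw [hli, ← h3]
        · exact h1 l fun hlD => hl (Finset.mem_erase.2 ⟨hli, hlD⟩)
      · left
        have hc : (c - Pi.single i 1 : I → ℤ) + Pi.single i 1 = c := sub_add_cancel _ _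
        refine ⟨c - Pi.single i 1, ⟨fun l hl => ?_, fun l hl => ?_, fun ρ => ?_⟩, hc⟩
        · rw [Pi.sub_apply, Pi.single_apply]
          split_ifs with hli
          · rw [hli]; omega
          · have := h0 l hl
            omega
        · rw [Pi.sub_apply, h1 l hl, Pi.single_apply,
            if_neg (fun hh : l = i => hl (by rw [hh]; exact hi))]
          rfl
        · have e1 := sum_single (mu := mu) (c - Pi.single i 1) i 1 ρ
          rw [hc] at e1
          have e2 := h2 ρ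
          rw [e1] at e2
          linarith
    · rintro (⟨c', ⟨h0, h1, h2⟩, rfl⟩ | ⟨h0, h1, h2⟩)
      · refine ⟨fun l hl => ?_, fun l hl => ?_, fun ρ => ?_⟩
        · rw [Pi.add_apply, Pi.single_apply]
          have := h0 l hl
          split_ifs <;> omega
        · rw [Pi.add_apply, h1 l hl, Pi.single_apply,
            if_neg (fun hh : l = i => hl (by rw [hh]; exact hi)), add_zero]
        · rw [sum_single]
          have := h2 ρ
          linarith
      · exact ⟨h0, fun l hl => h1 l fun hh => hl (Finset.mem_of_mem_erase hh), h2⟩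
  have hdis : Disjoint ((fun c : I → ℤ => c + Pi.single i 1) '' QS mu Pos D ∅ (h + mu i))
      (QS mu Pos (D.erase i) ∅ h) := by
    rw [Set.disjoint_left]
    rintro c ⟨c', hc', rfl⟩ hc
    have h1 := hc.2.1 i (Finset.notMem_erase i D)
    have h2 := hc'.1 i hP
    simp at h1
    omega
  rw [hU, Set.ncard_union_eq hdis ((QS_finite hδ hd _ _ _).image _) (QS_finite hδ hd _ _ _),
    Set.ncard_image_of_injective _ hinj]
  push_cast
  ring

theorem vc2_inv [DecidableEq I] (D : Finset I) (i : I)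
    (hP : i ∉ Pos) (hi : i ∈ D) (h : W → ℤ) :
    vc2 mu Pos D (h + mu i) = vc2 mu Pos D h := by
  unfold vc2
  have hinj : Function.Injective (fun c : I → ℤ => c + Pi.single i 1) := fun a b hab => by
    simpa using hab
  have hU : QS mu Pos D ∅ h = (fun c : I → ℤ => c + Pi.single i 1) '' QS mu Pos D ∅ (h + mu i) := by
    ext c
    simp only [QS, Set.mem_image, Set.mem_ofPred_eq, Finset.notMem_empty,
      false_implies, not_false_eq_true, true_implies, true_and, Pi.add_apply]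
    constructor
    · rintro ⟨h0, h1, h2⟩
      have hc : (c - Pi.single i 1 : I → ℤ) + Pi.single i 1 = c := sub_add_cancel _ _
      refine ⟨c - Pi.single i 1, ⟨fun l hl => ?_, fun l hl => ?_, fun ρ => ?_⟩, hc⟩
      · rw [Pi.sub_apply, Pi.single_apply, if_neg (fun hh : l = i => hP (by rw [← hh]; exact hl))]
        have := h0 l hl
        omega
      · rw [Pi.sub_apply, h1 l hl, Pi.single_apply,
          if_neg (fun hh : l = i => hl (by rw [hh]; exact hi))]
        rfl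
      · have e1 := sum_single (mu := mu) (c - Pi.single i 1) i 1 ρ
        rw [hc] at e1
        have e2 := h2 ρ
        rw [e1] at e2
        linarith
    · rintro ⟨c', ⟨h0, h1, h2⟩, rfl⟩
      refine ⟨fun l hl => ?_, fun l hl => ?_, fun ρ => ?_⟩
      · rw [Pi.add_apply, Pi.single_apply, if_neg (fun hh : l = i => hP (by rw [← hh]; exact hl))]
        have := h0 l hl
        omega
      · rw [Pi.add_apply, h1 l hl, Pi.single_apply,
          if_neg (fun hh : l = i => hl (by rw [hh]; exact hi)), add_zero]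
      · rw [sum_single]
        have := h2 ρ
        linarith
  rw [hU, Set.ncard_image_of_injective _ hinj]

theorem dact_prod [DecidableEq W] (hδ : 0 < δ) (hd : Cond mu Pos δ) (D : Finset I)
    (S : Finset W) : ∀ h : W → ℤ,
      dact W (∏ ρ ∈ S, MvPolynomial.X ρ) (vc2 mu Pos D) h = ((QS mu Pos D S h).ncard : ℂ) := by
  induction S using Finset.induction_on with
  | empty =>
    intro h
    rw [Finset.prod_empty, map_one]
    rfl
  | insert ρ S hρ ih =>
    intro h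
    rw [Finset.prod_insert hρ, map_mul]
    show dact W (MvPolynomial.X ρ) (dact W (∏ ρ ∈ S, MvPolynomial.X ρ) (vc2 mu Pos D)) h = _
    rw [dact_X, ih, ih, sub_eq_iff_eq_add]
    have hU : QS mu Pos D S (h + Pi.single ρ 1) = QS mu Pos D (insert ρ S) h ∪ QS mu Pos D S h := by
      ext c
      simp only [QS, Set.mem_union, Set.mem_ofPred_eq, Finset.mem_insert]
      constructor
      · rintro ⟨h0, h1, h2⟩
        have h3 := (h2 ρ).2 hρ
        rw [Pi.add_apply, Pi.single_eq_same] at h3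
        rcases lt_or_ge (h ρ + ∑ i, c i * mu i ρ) 0 with h4 | h4
        · left
          refine ⟨h0, h1, fun τ => ⟨fun hτ => ?_, fun hτ => ?_⟩⟩
          · rcases hτ with rfl | hτ
            · omega
            · have hne : τ ≠ ρ := fun hh => hρ (hh ▸ hτ)
              have := (h2 τ).1 hτ
              rw [Pi.add_apply, Pi.single_eq_of_ne hne, add_zero] at this
              exact this
          · push Not at hτ
            have := (h2 τ).2 hτ.2
            rw [Pi.add_apply, Pi.single_eq_of_ne hτ.1, add_zero] at this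
            exact this
        · right
          refine ⟨h0, h1, fun τ => ⟨fun hτ => ?_, fun hτ => ?_⟩⟩
          · have hne : τ ≠ ρ := fun hh => hρ (hh ▸ hτ)
            have := (h2 τ).1 hτ
            rw [Pi.add_apply, Pi.single_eq_of_ne hne, add_zero] at this
            exact this
          · by_cases hne : τ = ρ
            · rw [hne]; exact h4
            · have := (h2 τ).2 hτ
              rw [Pi.add_apply, Pi.single_eq_of_ne hne, add_zero] at this
              exact this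
      · rintro (⟨h0, h1, h2⟩ | ⟨h0, h1, h2⟩)
        · refine ⟨h0, h1, fun τ => ⟨fun hτ => ?_, fun hτ => ?_⟩⟩
          · have hne : τ ≠ ρ := fun hh => hρ (hh ▸ hτ)
            rw [Pi.add_apply, Pi.single_eq_of_ne hne, add_zero]
            exact (h2 τ).1 (Or.inr hτ)
          · by_cases hne : τ = ρ
            · subst hne
              rw [Pi.add_apply, Pi.single_eq_same]
              have := (h2 τ).1 (Or.inl rfl)
              omega
            · rw [Pi.add_apply, Pi.single_eq_of_ne hne, add_zero]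
              exact (h2 τ).2 (fun hh => hh.elim hne hτ)
        · refine ⟨h0, h1, fun τ => ⟨fun hτ => ?_, fun hτ => ?_⟩⟩
          · have hne : τ ≠ ρ := fun hh => hρ (hh ▸ hτ)
            rw [Pi.add_apply, Pi.single_eq_of_ne hne, add_zero]
            exact (h2 τ).1 hτ
          · by_cases hne : τ = ρ
            · subst hne
              rw [Pi.add_apply, Pi.single_eq_same]
              have := (h2 τ).2 hτ
              omega
            · rw [Pi.add_apply, Pi.single_eq_of_ne hne, add_zero]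
              exact (h2 τ).2 hτ
    have hdis : Disjoint (QS mu Pos D (insert ρ S) h) (QS mu Pos D S h) := by
      rw [Set.disjoint_left]
      intro c hc hc'
      have h1 := (hc.2.2 ρ).1 (Finset.mem_insert_self ρ S)
      have h2 := (hc'.2.2 ρ).2 hρ
      omega
    rw [hU, Set.ncard_union_eq hdis (QS_finite hδ hd _ _ _) (QS_finite hδ hd _ _ _)]
    push_cast
    ring

/-- faces of the polytope -/
def Fc (mu : I → W → ℤ) (Pos : Finset I) (g : W → ℝ) (D : Finset I) (S : Finset W) : Prop :=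
  ∃ c : I → ℝ, (∀ i ∈ Pos, 0 ≤ c i) ∧ (∀ i, i ∉ D → c i = 0) ∧
    (∀ ρ, 0 ≤ g ρ + ∑ i, c i * (mu i ρ : ℝ)) ∧ ∀ ρ ∈ S, g ρ + ∑ i, c i * (mu i ρ : ℝ) = 0

theorem nonface [DecidableEq W] (hδ : 0 < δ) (hd : Cond mu Pos δ) (g : W → ℝ) (D : Finset I)
    (S : Finset W) (hface : ¬ Fc mu Pos g D S) :
    ∃ η : ℝ, 0 < η ∧ ∃ M₀ : ℕ, ∀ M : ℕ, M₀ ≤ M → ∀ h : W → ℤ,
      (∀ ρ, |(h ρ : ℝ) - M * g ρ| ≤ η * M) →
      dact W (∏ ρ ∈ S, MvPolynomial.X ρ) (vc2 mu Pos D) h = 0 := by
  by_contra hcon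
  push Not at hcon
  have h1 : ∀ n : ℕ, ∃ M : ℕ, n + 1 ≤ M ∧ ∃ h : W → ℤ,
      (∀ ρ, |(h ρ : ℝ) - M * g ρ| ≤ (1 / ((n : ℝ) + 1)) * M) ∧
        (QS mu Pos D S h).Nonempty := by
    intro n
    obtain ⟨M, hM, h, hh, hne⟩ := hcon (1 / ((n : ℝ) + 1)) (by positivity) (n + 1)
    refine ⟨M, hM, h, hh, ?_⟩
    rw [dact_prod hδ hd] at hne
    by_contra hemp
    rw [Set.not_nonempty_iff_eq_empty] at hemp
    rw [hemp, Set.ncard_empty] at hne
    exact hne Nat.cast_zero
  choose M hM h hh hne using h1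
  choose c hc using hne
  have hMpos : ∀ n, (0 : ℝ) < M n := fun n => by
    have := hM n
    exact_mod_cast (by omega : 0 < M n)
  have hM1 : ∀ n, (1 : ℝ) ≤ M n := fun n => by
    have := hM n
    exact_mod_cast (by omega : 1 ≤ M n)
  -- the rescaled points are bounded
  set K : ℝ := (∑ ρ, (|g ρ| + 1) + 1) / δ with hK
  have hhabs : ∀ n ρ, |(h n ρ : ℝ)| ≤ M n * (|g ρ| + 1) := by
    intro n ρ
    have e1 := hh n ρ
    have e2 : (1 / ((n : ℝ) + 1)) * M n ≤ M n := by
      have : 1 / ((n : ℝ) + 1) ≤ 1 := by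
        rw [div_le_one (by positivity)]
        have : (0 : ℝ) ≤ n := Nat.cast_nonneg n
        linarith
      nlinarith [hMpos n]
    calc |(h n ρ : ℝ)| = |((h n ρ : ℝ) - M n * g ρ) + M n * g ρ| := by ring_nf
      _ ≤ |(h n ρ : ℝ) - M n * g ρ| + |(M n : ℝ) * g ρ| := abs_add_le _ _
      _ ≤ M n + M n * |g ρ| := by
        rw [abs_mul, abs_of_pos (hMpos n)]
        linarith
      _ = _ := by ring
  have hbd : ∀ n i, (c n i : ℝ) / M n ∈ Set.Icc (-K) K := by
    intro n i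
    have e1 := norm_le' hδ hd zero_le_one (hc n).1 (fun ρ => QS_ge (hc n) ρ)
    have e2 : |(c n i : ℝ)| ≤ ‖(fun i => (c n i : ℝ))‖ := by
      rw [← Real.norm_eq_abs]
      exact norm_le_pi_norm (fun i => (c n i : ℝ)) i
    have e3 : |(c n i : ℝ) / M n| ≤ K := by
      rw [abs_div, abs_of_pos (hMpos n), div_le_iff₀ (hMpos n)]
      refine e2.trans (e1.trans ?_)
      rw [hK, div_mul_eq_mul_div]
      refine div_le_div_of_nonneg_right ?_ hδ.le
      have e3 : ∑ ρ, |(h n ρ : ℝ)| ≤ ∑ ρ, M n * (|g ρ| + 1) :=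
        Finset.sum_le_sum fun ρ _ => hhabs n ρ
      rw [← Finset.mul_sum] at e3
      rw [add_mul, one_mul, mul_comm]
      have := hM1 n
      linarith
    exact abs_le.1 e3
  have hcomp : IsCompact (Set.pi Set.univ (fun _ : I => Set.Icc (-K) K)) :=
    isCompact_univ_pi fun _ => isCompact_Icc
  obtain ⟨a, ha, φ, hφ, hlim⟩ := hcomp.tendsto_subseq (x := fun n i => (c n i : ℝ) / M n)
    (fun n i _ => hbd n i)
  have hlim' := tendsto_pi_nhds.1 hlim
  have hinvM : Filter.Tendsto (fun n => 1 / (M (φ n) : ℝ)) Filter.atTop (nhds 0) := by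
    have e1 := (tendsto_one_div_add_atTop_nhds_zero_nat (𝕜 := ℝ)).comp hφ.tendsto_atTop
    refine squeeze_zero (fun n => by positivity) (fun n => ?_) e1
    show 1 / (M (φ n) : ℝ) ≤ 1 / (((φ n : ℕ) : ℝ) + 1)
    refine one_div_le_one_div_of_le (by positivity) ?_
    exact_mod_cast hM (φ n)
  have hhlim : ∀ ρ, Filter.Tendsto (fun n => (h (φ n) ρ : ℝ) / M (φ n)) Filter.atTop
      (nhds (g ρ)) := by
    intro ρ
    have e1 := (tendsto_one_div_add_atTop_nhds_zero_nat (𝕜 := ℝ)).comp hφ.tendsto_atTop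
    have e2 : Filter.Tendsto (fun n => (h (φ n) ρ : ℝ) / M (φ n) - g ρ) Filter.atTop
        (nhds 0) := by
      refine squeeze_zero_norm (fun n => ?_) e1
      rw [Real.norm_eq_abs]
      have e3 := hh (φ n) ρ
      have e4 : (h (φ n) ρ : ℝ) / M (φ n) - g ρ = ((h (φ n) ρ : ℝ) - M (φ n) * g ρ) / M (φ n) := by
        field_simp [(hMpos (φ n)).ne']
      rw [e4, abs_div, abs_of_pos (hMpos (φ n)), div_le_iff₀ (hMpos (φ n))]
      exact e3
    have e5 := e2.add_const (g ρ)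
    simp only [sub_add_cancel, zero_add] at e5
    simpa using e5
  have hsumlim : ∀ ρ, Filter.Tendsto (fun n => (h (φ n) ρ : ℝ) / M (φ n)
      + ∑ i, (c (φ n) i : ℝ) / M (φ n) * (mu i ρ : ℝ)) Filter.atTop
      (nhds (g ρ + ∑ i, a i * (mu i ρ : ℝ))) := fun ρ =>
    (hhlim ρ).add (tendsto_finsetSum _ fun i _ => (hlim' i).mul_const _)
  have hre : ∀ n ρ, (h n ρ : ℝ) / M n + ∑ i, (c n i : ℝ) / M n * (mu i ρ : ℝ)
      = (((h n ρ + ∑ i, c n i * mu i ρ : ℤ)) : ℝ) * (1 / M n) := by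
    intro n ρ
    push_cast
    rw [add_mul, Finset.sum_mul]
    congr 1
    · ring
    · exact Finset.sum_congr rfl fun i _ => by ring
  refine hface ⟨a, fun i hi => ?_, fun i hi => ?_, fun ρ => ?_, fun ρ hρ => ?_⟩
  · refine ge_of_tendsto' (hlim' i) (fun n => ?_)
    show 0 ≤ (c (φ n) i : ℝ) / M (φ n)
    have := (hc (φ n)).1 i hi
    exact div_nonneg (by exact_mod_cast this) (hMpos _).le
  · have e1 : ∀ n, (c (φ n) i : ℝ) / M (φ n) = 0 := fun n => by
      rw [(hc (φ n)).2.1 i hi, Int.cast_zero, zero_div]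
    refine tendsto_nhds_unique (hlim' i) ?_
    show Filter.Tendsto (fun n => (c (φ n) i : ℝ) / M (φ n)) _ _
    simp only [e1]
    exact tendsto_const_nhds
  · have e1 : Filter.Tendsto (fun n => - (1 / (M (φ n) : ℝ))) Filter.atTop (nhds 0) := by
      simpa using hinvM.neg
    have e2 := le_of_tendsto_of_tendsto' e1 (hsumlim ρ) (fun n => by
      rw [hre]
      have e3 := QS_ge (hc (φ n)) ρ
      have e4 : (0 : ℝ) ≤ 1 / M (φ n) := by positivity
      push_cast
      nlinarith)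
    simpa using e2
  · have e1 : Filter.Tendsto (fun n => - (1 / (M (φ n) : ℝ))) Filter.atTop (nhds 0) := by
      simpa using hinvM.neg
    have e2 : (fun n => (h (φ n) ρ : ℝ) / M (φ n)
      + ∑ i, (c (φ n) i : ℝ) / M (φ n) * (mu i ρ : ℝ)) = fun n => - (1 / (M (φ n) : ℝ)) := by
      funext n
      rw [hre, ((hc (φ n)).2.2 ρ).1 hρ]
      push_cast
      ring
    have e3 := hsumlim ρ
    rw [e2] at e3
    simpa using tendsto_nhds_unique e3 e1

end

end Pool.Agent.Helper30_Simp2.H26
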