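import Pool.Agent.Helper30_Simp2.Stmts
import Pool.Agent.Helper94_Simp.Algf
import Pool.Agent.Helper26_Simp2.Cnt

/-!
# Module ALG2: the class of the polytope does not vanish
-/

set_option autoImplicit false
set_option linter.unusedVariables false
set_option linter.unusedSectionVars false

namespace Pool.Agent.Helper30_Simp2.H26

open MvPolynomial Finset Pool.Agent.Helper30_Simp Pool.Agent.Helper30_Simp.H94
open scoped Classical

section

variable {P A W : Type} [Fintype P] [Fintype A] [Fintype W]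

theorem mon_sum (a : A → W → ℕ) (e : Finset A) :
    ∏ i ∈ e, mon (a i) = mon (fun ρ => ∑ i ∈ e, a i ρ) := by
  unfold mon
  rw [Finset.prod_comm]
  exact Finset.prod_congr rfl fun ρ _ => Finset.prod_pow_eq_pow_sum _ _ _

theorem lfn_eq (a : A → W → ℕ) (i : A) :
    lfn a i = ∑ ρ, ((a i ρ : ℕ) : MvPolynomial W ℂ) * X ρ := by
  unfold lfn
  exact Finset.sum_congr rfl fun ρ _ => by rw [map_natCast]

theorem lfn_hom (a : A → W → ℕ) (i : A) : (lfn a i).IsHomogeneous 1 :=
  IsHomogeneous.sum _ _ _ fun ρ _ => isHomogeneous_C_mul_X _ ρ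

theorem hi_rr (a : A → W → ℕ) (i : A) : Hi 2 ((mon (a i) - 1) - lfn a i) := by
  rw [lfn_eq]
  exact hi_mon (a i)

theorem hi_rr1 (a : A → W → ℕ) (i : A) : Hi 1 (mon (a i) - 1) := by
  have := ((hi_rr a i).mono (by norm_num : 1 ≤ 2)).add (Hi.of_hom (lfn_hom a i))
  rwa [sub_add_cancel] at this

theorem hi_qq1 (a : W → ℤ) : Hi 1 (qq a) := by
  have := ((hi_qq a).mono (by norm_num : 1 ≤ 2)).add (Hi.of_hom (ll_hom a))
  rwa [sub_add_cancel] at this

theorem isHom_prodlfn (a : A → W → ℕ) (T : Finset A) :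
    (∏ i ∈ T, lfn a i).IsHomogeneous T.card := by
  have := IsHomogeneous.prod T (fun i => lfn a i) (fun _ => 1) fun i _ => lfn_hom a i
  simpa using this

theorem hi_two (lam : P → W → ℤ) (a : A → W → ℕ) (T : Finset P) (T' : Finset A) :
    Hi (T.card + T'.card + 1) ((∏ i ∈ T, qq (lam i)) * (∏ i ∈ T', (mon (a i) - 1))
      - (∏ i ∈ T, ll (lam i)) * ∏ i ∈ T', lfn a i) := by
  have e : (∏ i ∈ T, qq (lam i)) * (∏ i ∈ T', (mon (a i) - 1))
      - (∏ i ∈ T, ll (lam i)) * ∏ i ∈ T', lfn a i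
      = (∏ i ∈ T, qq (lam i) - ∏ i ∈ T, ll (lam i)) * (∏ i ∈ T', (mon (a i) - 1))
        + (∏ i ∈ T, ll (lam i)) * (∏ i ∈ T', (mon (a i) - 1) - ∏ i ∈ T', lfn a i) := by ring
  rw [e]
  refine Hi.add ?_ ?_
  · refine ((Hi.prod_sub T (fun i => qq (lam i)) (fun i => ll (lam i))
      (fun i _ => Hi.of_hom (ll_hom (lam i))) fun i _ => hi_qq (lam i)).mul
      (Hi.prod T' _ fun i _ => hi_rr1 a i)).mono ?_
    omega
  · refine ((Hi.of_hom (isHom_prodll lam T)).mul (Hi.prod_sub T' (fun i => mon (a i) - 1)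
      (fun i => lfn a i) (fun i _ => Hi.of_hom (lfn_hom a i)) fun i _ => hi_rr a i)).mono ?_
    omega

theorem dact_prod_qq' {lam : P → W → ℤ} {F : Finset P → (W → ℤ) → ℂ}
    (hd : ∀ (D : Finset P), ∀ i ∈ D, ∀ h : W → ℤ,
      F D (h + lam i) = F D h - F (D.erase i) h) (D T : Finset P) (hT : T ⊆ D) :
    dact W (∏ i ∈ T, qq (lam i)) (F D)
      = (-1 : ℂ) ^ T.card • dact W (mon (sh lam T)) (F (D \ T)) := by
  induction T using Finset.induction_on with
  | empty =>
    funext h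
    rw [Finset.prod_empty, map_one, Finset.card_empty, pow_zero, one_smul, Finset.sdiff_empty,
      dact_mon, Module.End.one_apply]
    congr 1
    funext ρ
    simp [sh]
  | insert a s ha ih =>
    rw [Finset.prod_insert ha, map_mul, Module.End.mul_apply,
      ih ((Finset.subset_insert a s).trans hT), map_smul, Finset.card_insert_of_notMem ha,
      pow_succ, mul_smul]
    congr 1
    funext h
    rw [dact_qq, dact_mon, dact_mon, Pi.smul_apply, dact_mon]
    have ha' : a ∈ D \ s := by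
      rw [Finset.mem_sdiff]
      exact ⟨hT (mem_insert_self a s), ha⟩
    have e1 : (h + fun ρ => ((lam a ρ).toNat : ℤ)) + (fun ρ => ((sh lam s ρ : ℕ) : ℤ))
        = (h + fun ρ => ((sh lam (insert a s) ρ : ℕ) : ℤ)) + lam a := by
      funext ρ
      have h2 : ((lam a ρ).toNat : ℤ) - ((-lam a ρ).toNat : ℤ) = lam a ρ :=
        Int.toNat_sub_toNat_neg _
      have h3 : sh lam (insert a s) ρ = (-lam a ρ).toNat + sh lam s ρ := Finset.sum_insert ha
      simp only [Pi.add_apply, h3]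
      push_cast
      linarith
    have e2 : (h + fun ρ => ((-lam a ρ).toNat : ℤ)) + (fun ρ => ((sh lam s ρ : ℕ) : ℤ))
        = (h + fun ρ => ((sh lam (insert a s) ρ : ℕ) : ℤ)) := by
      funext ρ
      have h3 : sh lam (insert a s) ρ = (-lam a ρ).toNat + sh lam s ρ := Finset.sum_insert ha
      simp only [Pi.add_apply, h3]
      push_cast
      ring
    rw [e1, e2, hd (D \ s) a ha']
    have e3 : (D \ s).erase a = D \ insert a s := by
      ext i
      simp only [Finset.mem_erase, Finset.mem_sdiff, Finset.mem_insert]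
      tauto
    rw [e3]
    simp

/-- the directions of the lattice -/
def muu (lam : P → W → ℤ) (a b : A → W → ℕ) : P ⊕ A → W → ℤ :=
  Sum.elim lam fun i ρ => (a i ρ : ℤ) - b i ρ

/-- the nonnegative coordinates -/
def PosP (P A : Type) [Fintype P] [Fintype A] : Finset (P ⊕ A) :=
  (univ : Finset P).disjSum (∅ : Finset A)

/-- the counting function -/
noncomputable def FF (lam : P → W → ℤ) (a b : A → W → ℕ) (D : Finset P) : (W → ℤ) → ℂ :=
  vc2 (muu lam a b) (PosP P A) (D.disjSum univ)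

theorem FF_diff {lam : P → W → ℤ} {a b : A → W → ℕ} {δ : ℝ} (hδ : 0 < δ)
    (hd : Cond (muu lam a b) (PosP P A) δ) (D : Finset P) (i : P) (hi : i ∈ D) (h : W → ℤ) :
    FF lam a b D (h + lam i) = FF lam a b D h - FF lam a b (D.erase i) h := by
  have h1 := vc2_diff hδ hd (D.disjSum univ) (Sum.inl i) (by simp [PosP]) (by simpa using hi) h
  have e : (D.disjSum (univ : Finset A)).erase (Sum.inl i) = (D.erase i).disjSum univ := by
    ext x
    rcases x with x | x <;> simp
  rw [e] at h1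
  exact h1

theorem FF_inv {lam : P → W → ℤ} {a b : A → W → ℕ} (D : Finset P) (i : A) (h : W → ℤ) :
    FF lam a b D (h + fun ρ => (a i ρ : ℤ)) = FF lam a b D (h + fun ρ => (b i ρ : ℤ)) := by
  have h1 := vc2_inv (mu := muu lam a b) (Pos := PosP P A) (D.disjSum univ) (Sum.inr i)
    (by simp [PosP]) (by simp) (h + fun ρ => (b i ρ : ℤ))
  have e : (h + fun ρ => (b i ρ : ℤ)) + muu lam a b (Sum.inr i) = h + fun ρ => (a i ρ : ℤ) := by
    funext ρ
    simp [muu]
  rw [e] at h1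
  exact h1

theorem FF_empty (lam : P → W → ℤ) (a b : A → W → ℕ) (e : Finset A) (h : W → ℤ) :
    FF lam a b ∅ (h + fun ρ => ((∑ i ∈ e, a i ρ : ℕ) : ℤ)) =
      ((Nat.card {y : A → ℤ // ∀ ρ, 0 ≤ h ρ +
          ∑ i, ((y i + if i ∈ e then 1 else 0) * (a i ρ : ℤ) - y i * (b i ρ : ℤ))} : ℤ) : ℂ) := by
  unfold FF vc2
  rw [← Nat.card_coe_set_eq, Int.cast_natCast]
  congr 1
  have hsum : ∀ (c : P ⊕ A → ℤ) (hc : ∀ i : P, c (Sum.inl i) = 0) (ρ : W),
      (h + fun ρ => ((∑ i ∈ e, a i ρ : ℕ) : ℤ)) ρ + ∑ i, c i * muu lam a b i ρ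
        = h ρ + ∑ i : A, ((c (Sum.inr i) + if i ∈ e then 1 else 0) * (a i ρ : ℤ)
          - c (Sum.inr i) * (b i ρ : ℤ)) := by
    intro c hc ρ
    rw [Fintype.sum_sum_type]
    have e1 : ∑ i : P, c (Sum.inl i) * muu lam a b (Sum.inl i) ρ = 0 :=
      Finset.sum_eq_zero fun i _ => by rw [hc i, zero_mul]
    rw [e1, zero_add, Pi.add_apply, add_assoc]
    congr 1
    push_cast
    have e2 : ∑ i ∈ e, (a i ρ : ℤ) = ∑ i, if i ∈ e then (a i ρ : ℤ) else 0 := by
      rw [Finset.sum_ite_mem, Finset.univ_inter]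
    rw [e2, ← Finset.sum_add_distrib]
    refine Finset.sum_congr rfl fun i _ => ?_
    simp only [muu, Sum.elim_inr]
    split_ifs <;> ring
  refine Nat.card_congr
    { toFun := fun c => ⟨fun i => c.1 (Sum.inr i), fun ρ => ?_⟩
      invFun := fun y => ⟨Sum.elim (fun _ => 0) y.1, ?_, ?_, ?_⟩
      left_inv := ?_
      right_inv := ?_ }
  · have h0 : ∀ i : P, c.1 (Sum.inl i) = 0 := fun i => c.2.2.1 _ (by simp)
    have h1 := (c.2.2.2 ρ).2 (Finset.notMem_empty ρ)
    rw [hsum c.1 h0 ρ] at h1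
    exact h1
  · rintro (i | i) hi
    · simp
    · simp [PosP] at hi
  · rintro (i | i) hi
    · simp
    · simp at hi
  · intro ρ
    refine ⟨fun h => absurd h (Finset.notMem_empty ρ), fun _ => ?_⟩
    rw [hsum _ (fun i => rfl) ρ]
    exact y.2 ρ
  · intro c
    refine Subtype.ext (funext fun i => ?_)
    rcases i with i | i
    · exact (c.2.2.1 (Sum.inl i) (by simp)).symm
    · rfl
  · intro y
    rfl

theorem dact_rr (a : A → W → ℕ) (V : (W → ℤ) → ℂ) (h : W → ℤ) :
    dact W (∏ i, (mon (a i) - 1)) V h = ∑ e : Finset A,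
      (-1 : ℂ) ^ (Fintype.card A - e.card) * V (h + fun ρ => ((∑ i ∈ e, a i ρ : ℕ) : ℤ)) := by
  simp_rw [sub_eq_add_neg]
  rw [Finset.prod_add, Finset.powerset_univ, map_sum, LinearMap.sum_apply, Finset.sum_apply]
  refine Finset.sum_congr rfl fun e _ => ?_
  rw [mon_sum, Finset.prod_const, mul_comm, map_mul, Module.End.mul_apply]
  have e1 : (univ \ e : Finset A).card = Fintype.card A - e.card := by
    rw [Finset.card_sdiff_of_subset (Finset.subset_univ e), Finset.card_univ]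
  have e2 : ((-1 : MvPolynomial W ℂ)) ^ (univ \ e : Finset A).card
      = C ((-1 : ℂ) ^ (Fintype.card A - e.card)) := by
    rw [e1, map_pow, map_neg, map_one]
  rw [e2, ← algebraMap_eq, AlgHom.commutes, Algebra.algebraMap_eq_smul_one, LinearMap.smul_apply,
    Module.End.one_apply, Pi.smul_apply, dact_mon, smul_eq_mul]

theorem good2 {lam : P → W → ℤ} {a b : A → W → ℕ} {g : W → ℝ} {δ : ℝ} (hδ : 0 < δ)
    (hd : Cond (muu lam a b) (PosP P A) δ) (p : ℕ)
    (D : Finset P) (D' : Finset A) (S : Finset W)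
    (hDS : ¬ Fc (muu lam a b) (PosP P A) g (D.disjSum univ) S) (a0 : MvPolynomial W ℂ) :
    Good p g (FF lam a b univ)
      (a0 * ((∏ ρ ∈ S, X ρ) * (∏ i ∈ univ \ D, ll (lam i)) * ∏ i ∈ univ \ D', lfn a i)) := by
  set e := S.card + (univ \ D).card + (univ \ D').card with he
  have hom : ((∏ ρ ∈ S, X ρ) * (∏ i ∈ univ \ D, ll (lam i)) * ∏ i ∈ univ \ D', lfn a i
      : MvPolynomial W ℂ).IsHomogeneous e :=
    ((isHom_prodX S).mul (isHom_prodll lam _)).mul (isHom_prodlfn a _)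
  by_cases hep : e ≤ p
  · refine ⟨homogeneousComponent (p - e) a0 * ((∏ ρ ∈ S, X ρ) * (∏ i ∈ univ \ D, qq (lam i))
        * ∏ i ∈ univ \ D', (mon (a i) - 1)), ?_, fun α hα => ?_, ?_⟩
    · have h1 : Hi (p - e) (homogeneousComponent (p - e) a0) :=
        Hi.of_hom (homogeneousComponent_isHomogeneous _ _)
      have h2 : Hi S.card (∏ ρ ∈ S, X ρ : MvPolynomial W ℂ) := Hi.of_hom (isHom_prodX S)
      have h3 : Hi (univ \ D).card (∏ i ∈ univ \ D, qq (lam i)) :=
        Hi.prod _ _ fun i _ => hi_qq1 (lam i)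
      have h4 : Hi (univ \ D').card (∏ i ∈ univ \ D', (mon (a i) - 1)) :=
        Hi.prod _ _ fun i _ => hi_rr1 a i
      exact (h1.mul ((h2.mul h3).mul h4)).mono (by omega)
    · have h1 := (coeff_hom a0 _ hom α hα).1 hep
      have h2 : Hi (p + 1) (homogeneousComponent (p - e) a0 * ((∏ ρ ∈ S, X ρ)
          * ((∏ i ∈ univ \ D, qq (lam i)) * (∏ i ∈ univ \ D', (mon (a i) - 1))
            - (∏ i ∈ univ \ D, ll (lam i)) * ∏ i ∈ univ \ D', lfn a i))) := by
        refine ((Hi.of_hom (homogeneousComponent_isHomogeneous _ _)).mul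
          ((Hi.of_hom (isHom_prodX S)).mul (hi_two lam a (univ \ D) (univ \ D')))).mono ?_
        omega
      have h3 := h2 α (by omega)
      have e1 : a0 * ((∏ ρ ∈ S, X ρ) * (∏ i ∈ univ \ D, ll (lam i)) * ∏ i ∈ univ \ D', lfn a i)
          - homogeneousComponent (p - e) a0 * ((∏ ρ ∈ S, X ρ) * (∏ i ∈ univ \ D, qq (lam i))
            * ∏ i ∈ univ \ D', (mon (a i) - 1))
          = (a0 * ((∏ ρ ∈ S, X ρ) * (∏ i ∈ univ \ D, ll (lam i)) * ∏ i ∈ univ \ D', lfn a i)
              - homogeneousComponent (p - e) a0 * ((∏ ρ ∈ S, X ρ) * (∏ i ∈ univ \ D, ll (lam i))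
                * ∏ i ∈ univ \ D', lfn a i))
            - homogeneousComponent (p - e) a0 * ((∏ ρ ∈ S, X ρ)
              * ((∏ i ∈ univ \ D, qq (lam i)) * (∏ i ∈ univ \ D', (mon (a i) - 1))
            - (∏ i ∈ univ \ D, ll (lam i)) * ∏ i ∈ univ \ D', lfn a i)) := by ring
      rw [e1, coeff_sub, h1, h3, sub_zero]
    · have e0 : homogeneousComponent (p - e) a0 * ((∏ ρ ∈ S, X ρ) * (∏ i ∈ univ \ D, qq (lam i))
            * ∏ i ∈ univ \ D', (mon (a i) - 1))
          = (homogeneousComponent (p - e) a0 * ∏ i ∈ univ \ D', (mon (a i) - 1))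
            * ((∏ ρ ∈ S, X ρ) * (∏ i ∈ univ \ D, qq (lam i))) := by ring
      rw [e0, map_mul, Module.End.mul_apply]
      refine Van.dact ?_ _
      rw [map_mul, Module.End.mul_apply,
        dact_prod_qq' (F := FF lam a b) (fun D i hi h => FF_diff hδ hd D i hi h) univ (univ \ D)
          (Finset.subset_univ _), map_smul]
      refine Van.smul ?_ _
      have e1 : (univ \ (univ \ D) : Finset P) = D := by
        ext i
        simp
      rw [e1, ← Module.End.mul_apply, ← map_mul, mul_comm, map_mul, Module.End.mul_apply]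
      refine Van.dact ?_ _
      obtain ⟨η, hη, M₀, h⟩ := nonface hδ hd g (D.disjSum univ) S hDS
      exact ⟨η, hη, M₀, h⟩
  · refine Good.zero _ _ _ _ fun α hα => ?_
    exact (coeff_hom a0 _ hom α hα).2 (by omega)

theorem good3 {lam : P → W → ℤ} {a b : A → W → ℕ} {g : W → ℝ} (p : ℕ) (i : A)
    (a0 : MvPolynomial W ℂ) :
    Good p g (FF lam a b univ) (a0 * (lfn a i - lfn b i)) := by
  have hom : (lfn a i - lfn b i).IsHomogeneous 1 := (lfn_hom a i).sub (lfn_hom b i)
  by_cases hep : 1 ≤ p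
  · have h0 : Hi 2 ((mon (a i) - mon (b i)) - (lfn a i - lfn b i)) := by
      have := (hi_rr a i).sub (hi_rr b i)
      have e : mon (a i) - 1 - lfn a i - (mon (b i) - 1 - lfn b i)
          = (mon (a i) - mon (b i)) - (lfn a i - lfn b i) := by ring
      rwa [e] at this
    refine ⟨homogeneousComponent (p - 1) a0 * (mon (a i) - mon (b i)), ?_, fun α hα => ?_, ?_⟩
    · have h1 : Hi (p - 1) (homogeneousComponent (p - 1) a0) :=
        Hi.of_hom (homogeneousComponent_isHomogeneous _ _)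
      have h2 : Hi 1 (mon (a i) - mon (b i)) := by
        have := (h0.mono (by norm_num : 1 ≤ 2)).add (Hi.of_hom hom)
        rwa [sub_add_cancel] at this
      exact (h1.mul h2).mono (by omega)
    · have h1 := (coeff_hom a0 _ hom α hα).1 hep
      have h2 : Hi (p + 1) (homogeneousComponent (p - 1) a0
          * ((mon (a i) - mon (b i)) - (lfn a i - lfn b i))) := by
        refine ((Hi.of_hom (homogeneousComponent_isHomogeneous _ _)).mul h0).mono ?_
        omega
      have h3 := h2 α (by omega)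
      have e1 : a0 * (lfn a i - lfn b i)
          - homogeneousComponent (p - 1) a0 * (mon (a i) - mon (b i))
          = (a0 * (lfn a i - lfn b i)
              - homogeneousComponent (p - 1) a0 * (lfn a i - lfn b i))
            - homogeneousComponent (p - 1) a0
              * ((mon (a i) - mon (b i)) - (lfn a i - lfn b i)) := by ring
      rw [e1, coeff_sub, h1, h3, sub_zero]
    · rw [map_mul, Module.End.mul_apply]
      refine Van.dact ?_ _
      have e1 : dact W (mon (a i) - mon (b i)) (FF lam a b univ) = 0 := by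
        funext h
        rw [map_sub, LinearMap.sub_apply, Pi.sub_apply, dact_mon, dact_mon, FF_inv, sub_self]
        rfl
      rw [e1]
      exact Van.zero g
  · refine Good.zero _ _ _ _ fun α hα => ?_
    exact (coeff_hom a0 _ hom α hα).2 (by omega)

theorem alg2_int (hA : AveStmt) (hT : TStmt) (lam : P → W → ℤ) (a b : A → W → ℕ) (g : W → ℚ)
    (hg : ∀ ρ, 0 < g ρ)
    (hc : ∀ (c : P → ℝ) (y : A → ℝ), (∀ i, 0 ≤ c i) →
      (∀ ρ, 0 ≤ ∑ i, c i * (lam i ρ : ℝ) + ∑ i, y i * ((a i ρ : ℝ) - b i ρ)) →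
      c = 0 ∧ y = 0)
    (hs : ∀ y : A → ℝ, (∀ ρ, 0 ≤ (g ρ : ℝ) + ∑ i, y i * ((a i ρ : ℝ) - b i ρ)) →
      (∃ ρ, (g ρ : ℝ) + ∑ i, y i * ((a i ρ : ℝ) - b i ρ) = 0) →
      ∃ i, ¬ ((∀ ρ, (g ρ : ℝ) + ∑ l, y l * ((a l ρ : ℝ) - b l ρ) = 0 → a i ρ = 0) ↔
        ∀ ρ, (g ρ : ℝ) + ∑ l, y l * ((a l ρ : ℝ) - b l ρ) = 0 → b i ρ = 0)) :
    (∏ i, lf (fun i ρ => (lam i ρ : ℚ)) i) * ∏ i, lfn a i
      ∉ nf2 (fun i ρ => (lam i ρ : ℚ)) a b g := by
  have hlf : ∀ i, lf (fun i ρ => (lam i ρ : ℚ)) i = ll (lam i) := by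
    intro i
    unfold lf ll
    refine Finset.sum_congr rfl fun ρ _ => ?_
    congr 2
  have hsum : ∀ (c : P ⊕ A → ℝ) (ρ : W), ∑ i, c i * (muu lam a b i ρ : ℝ)
      = ∑ i, c (Sum.inl i) * (lam i ρ : ℝ) + ∑ i, c (Sum.inr i) * ((a i ρ : ℝ) - b i ρ) := by
    intro c ρ
    rw [Fintype.sum_sum_type]
    congr 1
    refine Finset.sum_congr rfl fun i _ => ?_
    simp [muu]
  obtain ⟨δ, hδ, hd⟩ := exists_delta (muu lam a b) (PosP P A) (fun c h0 h1 => by
    have h2 := hc (fun i => c (Sum.inl i)) (fun i => c (Sum.inr i))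
      (fun i => h0 _ (by simp [PosP])) (fun ρ => by
        have := h1 ρ
        rw [hsum] at this
        exact this)
    funext x
    rcases x with x | x
    · exact congrFun h2.1 x
    · exact congrFun h2.2 x)
  set p := Fintype.card P + Fintype.card A with hp
  set gr : W → ℝ := fun ρ => (g ρ : ℝ) with hgr
  have claim : ∀ x ∈ nf2 (fun i ρ => (lam i ρ : ℚ)) a b g, ∀ a0 : MvPolynomial W ℂ,
      Good p gr (FF lam a b univ) (a0 * x) := by
    intro x hx
    unfold nf2 at hx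
    refine Submodule.span_induction (p := fun x _ => ∀ a0 : MvPolynomial W ℂ,
      Good p gr (FF lam a b univ) (a0 * x)) ?_ ?_ ?_ ?_ hx
    · rintro x ((⟨D, D', S, hDS, rfl⟩ | ⟨i, rfl⟩) | ⟨α₀, hα₀, rfl⟩) a0
      · have := good2 (g := gr) hδ hd p D D' S (fun hF => hDS ?_) a0
        · simp_rw [hlf]
          exact this
        · obtain ⟨c, h1, h2, h3, h4⟩ := hF
          have e : ∀ ρ, (g ρ : ℝ) + ∑ i, c (Sum.inl i) * (((lam i ρ : ℤ) : ℚ) : ℝ)
              + ∑ i, ((c (Sum.inr i) + (0 : A → ℝ) i) * (a i ρ : ℝ) - c (Sum.inr i) * (b i ρ : ℝ))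
              = gr ρ + ∑ i, c i * (muu lam a b i ρ : ℝ) := by
            intro ρ
            have e1 : ∑ i, ((c (Sum.inr i) + (0 : A → ℝ) i) * (a i ρ : ℝ)
                - c (Sum.inr i) * (b i ρ : ℝ)) = ∑ i, c (Sum.inr i) * ((a i ρ : ℝ) - b i ρ) :=
              Finset.sum_congr rfl fun i _ => by
                rw [Pi.zero_apply]
                ring
            have e2 : ∑ i, c (Sum.inl i) * (((lam i ρ : ℤ) : ℚ) : ℝ)
                = ∑ i, c (Sum.inl i) * (lam i ρ : ℝ) :=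
              Finset.sum_congr rfl fun i _ => by rw [Rat.cast_intCast]
            rw [hsum, e1, e2, add_assoc]
          refine ⟨fun i => c (Sum.inl i), 0, fun i => c (Sum.inr i), fun i => h1 _ (by simp [PosP]),
            fun i hi => h2 _ (by simpa using hi), fun i => le_rfl, fun i _ => rfl, fun ρ => ?_,
            fun ρ hρ => ?_⟩
          · have := h3 ρ
            rw [← e] at this
            exact this
          · have := h4 ρ hρ
            rw [← e] at this
            exact this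
      · exact good3 p i a0
      · refine Good.zero _ _ _ _ fun α hα => ?_
        have h1 : Hi (p + 1) (monomial α₀ (1 : ℂ)) := by
          intro β hβ
          rw [coeff_monomial, if_neg]
          rintro rfl
          rw [Finsupp.degree_eq_sum] at hβ
          omega
        exact ((Hi.zero' a0).mul h1) α (by omega)
    · intro a0
      rw [mul_zero]
      exact Good.zero _ _ _ _ fun α _ => coeff_zero α
    · intro x y _ _ hx hy a0
      rw [mul_add]
      exact (hx a0).add (hy a0)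
    · intro b' x _ hx a0
      rw [smul_eq_mul, ← mul_assoc]
      exact hx (a0 * b')
  intro hmem
  simp_rw [hlf] at hmem
  obtain ⟨G, hG1, hG2, η, hη, M₀, hG3⟩ := claim _ hmem 1
  rw [one_mul] at hG2
  have hhom : ((∏ i, ll (lam i)) * ∏ i, lfn a i).IsHomogeneous p :=
    (isHom_prodll lam univ).mul (isHom_prodlfn a univ)
  have h1 : Hi (p + 1) ((∏ i, ll (lam i)) * (∏ i, lfn a i) - G) := by
    intro α hα
    rcases Nat.lt_succ_iff_lt_or_eq.1 hα with h | h
    · rw [coeff_sub, hG1 α h, Hi.of_hom hhom α h, sub_zero]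
    · exact hG2 α h
  have h2 : Hi (p + 1) ((∏ i, qq (lam i)) * (∏ i, (mon (a i) - 1))
      - (∏ i, ll (lam i)) * ∏ i, lfn a i) := hi_two lam a univ univ
  have h3 : Hi (p + 1) ((∏ i, qq (lam i)) * (∏ i, (mon (a i) - 1)) - G) := by
    have := h2.add h1
    rwa [sub_add_sub_cancel] at this
  -- the values near the points M g
  have hU : Van gr (dact W (∏ i, (mon (a i) - 1)) (FF lam a b ∅) - fun _ => 1) := by
    obtain ⟨η₁, hη₁, M₁, hM₁⟩ := hT A W a b gr (fun ρ => by
      show (0 : ℝ) < (g ρ : ℝ)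
      exact_mod_cast hg ρ) (fun y hy => (hc 0 y (fun i => le_rfl) (fun ρ => by
        simpa using hy ρ)).2) hs
    refine ⟨η₁, hη₁, M₁, fun M hM h hh => ?_⟩
    have h4 := hM₁ M hM h hh
    rw [Pi.sub_apply, dact_rr, sub_eq_zero]
    have h5 : ((∑ e : Finset A, (-1 : ℤ) ^ (Fintype.card A - e.card) *
        (Nat.card {y : A → ℤ // ∀ ρ, 0 ≤ h ρ +
          ∑ i, ((y i + if i ∈ e then 1 else 0) * (a i ρ : ℤ) - y i * (b i ρ : ℤ))} : ℤ) : ℤ) : ℂ)
        = 1 := by
      rw [h4, Int.cast_one]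
    refine Eq.trans ?_ h5
    rw [Int.cast_sum]
    refine Finset.sum_congr rfl fun e _ => ?_
    rw [FF_empty]
    push_cast
    rfl
  obtain ⟨η', hη', M₁, hU'⟩ := hU.dact (mon (sh lam univ))
  obtain ⟨C₀, hC₀⟩ : ∃ C₀ : ℝ, ∀ h, ‖FF lam a b univ h‖
      ≤ C₀ * (1 + ∑ ρ, |(h ρ : ℝ)|) ^ p := by
    refine ⟨(1 + 2 / δ) ^ p, fun h => ?_⟩
    have := vc2_bound hδ hd ((univ : Finset P).disjSum univ) h
    rw [Fintype.card_sum] at this
    exact this
  have h4 := hA W p gr (FF lam a b univ) C₀ hC₀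
    ((∏ i, qq (lam i)) * (∏ i, (mon (a i) - 1)) - G) (fun α hα => h3 α (by
      rw [Finsupp.degree_eq_sum]
      omega)) (min η η') (lt_min hη hη') (max M₀ M₁) ((-1) ^ Fintype.card P) ?_
  · exact absurd h4 (pow_ne_zero _ (by norm_num))
  · intro M hM h hh
    have hM0 : M₀ ≤ M := (le_max_left _ _).trans hM
    have hM1 : M₁ ≤ M := (le_max_right _ _).trans hM
    rw [map_sub, LinearMap.sub_apply, Pi.sub_apply, hG3 M hM0 h fun ρ => (hh ρ).trans
      (mul_le_mul_of_nonneg_right (min_le_left _ _) (by positivity)), sub_zero, mul_comm,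
      map_mul, Module.End.mul_apply,
      dact_prod_qq' (F := FF lam a b) (fun D i hi h => FF_diff hδ hd D i hi h) univ univ
        (Finset.Subset.refl _), map_smul, Pi.smul_apply]
    have e1 : (univ \ univ : Finset P) = ∅ := Finset.sdiff_self _
    rw [e1, ← Module.End.mul_apply, ← map_mul, mul_comm (∏ i, (mon (a i) - 1)), map_mul,
      Module.End.mul_apply, Finset.card_univ, smul_eq_mul]
    have h6 := hU' M hM1 h fun ρ => (hh ρ).trans
      (mul_le_mul_of_nonneg_right (min_le_right _ _) (by positivity))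
    rw [map_sub, Pi.sub_apply, sub_eq_zero, dact_mon (sh lam univ) (fun _ => (1 : ℂ))] at h6
    rw [h6, mul_one]

end

/-- MODULE ALG2 -/
theorem alg2 (hA : AveStmt) (hT : TStmt) : Alg2Stmt := by
  intro P A W _ _ _ lam a b g hg hc hs hmem
  -- common denominators
  have hden : ∀ i : P, ∃ d : ℕ, 0 < d ∧ ∀ ρ, ∃ z : ℤ, (z : ℚ) = d * lam i ρ := by
    intro i
    refine ⟨∏ ρ, (lam i ρ).den, Finset.prod_pos fun ρ _ => (lam i ρ).pos, fun ρ => ?_⟩
    refine ⟨(∏ ρ' ∈ univ.erase ρ, ((lam i ρ').den : ℤ)) * (lam i ρ).num, ?_⟩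
    rw [← Finset.mul_prod_erase univ (fun ρ => (lam i ρ).den) (Finset.mem_univ ρ)]
    push_cast
    have : (lam i ρ) * ((lam i ρ).den : ℚ) = (lam i ρ).num := Rat.mul_den_eq_num _
    rw [← this]
    ring
  choose d hd0 z hz using hden
  have hdr : ∀ i, (0 : ℝ) < d i := fun i => by exact_mod_cast hd0 i
  have hzr : ∀ i ρ, (z i ρ : ℝ) = d i * (lam i ρ : ℝ) := by
    intro i ρ
    have := hz i ρ
    have h2 : ((z i ρ : ℚ) : ℝ) = ((d i * lam i ρ : ℚ) : ℝ) := by rw [this]
    push_cast at h2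
    exact h2
  -- the cone condition
  have hc' : ∀ (c : P → ℝ) (y : A → ℝ), (∀ i, 0 ≤ c i) →
      (∀ ρ, 0 ≤ ∑ i, c i * (z i ρ : ℝ) + ∑ i, y i * ((a i ρ : ℝ) - b i ρ)) →
      c = 0 ∧ y = 0 := by
    intro c y h0 h1
    have h2 := hc (fun i => c i * d i) y (fun i => mul_nonneg (h0 i) (hdr i).le) fun ρ => by
      have := h1 ρ
      simp_rw [hzr] at this
      simpa [mul_assoc] using this
    refine ⟨funext fun i => ?_, h2.2⟩
    have h3 := congrFun h2.1 i
    simp only [Pi.zero_apply] at h3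
    rcases mul_eq_zero.1 h3 with h | h
    · exact h
    · exact absurd h (hdr i).ne'
  have hface : ∀ D D' S, IsFace2 (fun i ρ => (z i ρ : ℚ)) a b g D D' S →
      IsFace2 lam a b g D D' S := by
    rintro D D' S ⟨c, e', y, h1, h2, h5, h6, h3, h4⟩
    have e : ∀ ρ, ∑ i, c i * d i * (lam i ρ : ℝ) = ∑ i, c i * (((z i ρ : ℚ)) : ℝ) := by
      intro ρ
      refine Finset.sum_congr rfl fun i _ => ?_
      rw [Rat.cast_intCast, hzr]
      ring
    refine ⟨fun i => c i * d i, e', y, fun i => mul_nonneg (h1 i) (hdr i).le, fun i hi => ?_,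
      h5, h6, fun ρ => ?_, fun ρ hρ => ?_⟩
    · show c i * d i = 0
      rw [h2 i hi, zero_mul]
    · rw [e]
      exact h3 ρ
    · rw [e]
      exact h4 ρ hρ
  have hlf : ∀ i, lf (fun i ρ => (z i ρ : ℚ)) i = C ((d i : ℕ) : ℂ) * lf lam i := by
    intro i
    unfold lf
    rw [Finset.mul_sum]
    refine Finset.sum_congr rfl fun ρ _ => ?_
    show C (((z i ρ : ℤ) : ℚ) : ℂ) * X ρ = _
    rw [hz, ← mul_assoc, ← C_mul]
    push_cast
    rfl
  have hle : nf2 lam a b g ≤ nf2 (fun i ρ => (z i ρ : ℚ)) a b g := by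
    unfold nf2
    rw [Ideal.span_le]
    rintro x ((⟨D, D', S, hDS, rfl⟩ | hx) | hx)
    · have h1 : ((∏ ρ ∈ S, X ρ) * (∏ i ∈ univ \ D, lf lam i) * ∏ i ∈ univ \ D', lfn a i
            : MvPolynomial W ℂ)
          = C (∏ i ∈ univ \ D, ((d i : ℕ) : ℂ))⁻¹
            * ((∏ ρ ∈ S, X ρ) * (∏ i ∈ univ \ D, lf (fun i ρ => (z i ρ : ℚ)) i)
              * ∏ i ∈ univ \ D', lfn a i) := by
        simp_rw [hlf]
        rw [Finset.prod_mul_distrib, ← map_prod]
        have h2 : (∏ i ∈ univ \ D, ((d i : ℕ) : ℂ)) ≠ 0 :=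
          Finset.prod_ne_zero_iff.2 fun i _ => by exact_mod_cast (hd0 i).ne'
        have h3 : (C (∏ i ∈ univ \ D, ((d i : ℕ) : ℂ))⁻¹ : MvPolynomial W ℂ)
            * C (∏ i ∈ univ \ D, ((d i : ℕ) : ℂ)) = 1 := by
          rw [← C_mul, inv_mul_cancel₀ h2, C_1]
        calc _ = (1 : MvPolynomial W ℂ) * ((∏ ρ ∈ S, X ρ) * (∏ i ∈ univ \ D, lf lam i)
                * ∏ i ∈ univ \ D', lfn a i) := by
              rw [one_mul]
          _ = _ := by
              rw [← h3]
              ring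
      rw [h1]
      refine Ideal.mul_mem_left _ _ (Ideal.subset_span (Or.inl (Or.inl ⟨D, D', S,
        fun h => hDS (hface D D' S h), rfl⟩)))
    · exact Ideal.subset_span (Or.inl (Or.inr hx))
    · exact Ideal.subset_span (Or.inr hx)
  refine alg2_int hA hT z a b g hg hc' hs ?_
  simp_rw [hlf]
  rw [Finset.prod_mul_distrib, mul_assoc]
  exact Ideal.mul_mem_left _ _ (hle hmem)

end Pool.Agent.Helper30_Simp2.H26
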